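import Pool.Agent.KS6_82.Kah.PSpace
import Pool.Graph.R_seed8.Y758.MM.Defs

/-!
# Products of maps with Moishezon fibres

Helper file for `MP_795b03_ag`.
-/

set_option autoImplicit false

open Filter Metric Set Topology
open scoped Manifold ContDiff

namespace Pool.Agent.KS6_82.Kah

open Pool.Agent.Y758.MM (IsSmoothHypersurface HomCoord MoishezonOver)

variable {E F : Type} [NormedAddCommGroup E] [NormedSpace ℂ E] [NormedAddCommGroup F]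
  [NormedSpace ℂ F]
variable {M K : Type} [TopologicalSpace M] [ChartedSpace E M] [TopologicalSpace K]
  [ChartedSpace F K]
variable {B B' : Type}

theorem mdiff_fst : MDifferentiable 𝓘(ℂ, E × F) 𝓘(ℂ, E) (Prod.fst : M × K → M) := by
  rw [modelWithCornersSelf_prod]
  exact mdifferentiable_fst

theorem mdiff_snd : MDifferentiable 𝓘(ℂ, E × F) 𝓘(ℂ, F) (Prod.snd : M × K → K) := by
  rw [modelWithCornersSelf_prod]
  exact mdifferentiable_snd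

theorem mdiff_slice (k : K) : MDifferentiable 𝓘(ℂ, E) 𝓘(ℂ, E × F) (fun x : M => (x, k)) := by
  rw [modelWithCornersSelf_prod]
  exact mdifferentiable_id.prodMk mdifferentiable_const

theorem mdiffWithin_pi {n : ℕ} {Φ : M → Fin n → ℂ} {s : Set M} {x : M} :
    MDifferentiableWithinAt 𝓘(ℂ, E) 𝓘(ℂ, Fin n → ℂ) Φ s x ↔
      ∀ i, MDifferentiableWithinAt 𝓘(ℂ, E) 𝓘(ℂ, ℂ) (fun y => Φ y i) s x := by
  simp only [mdifferentiableWithinAt_iff, continuousWithinAt_pi, differentiableWithinAt_pi,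
    forall_and, extChartAt_model_space_eq_id, Function.comp_def,
    PartialEquiv.refl_coe, id]

theorem mdiffOn_pi {n : ℕ} {Φ : M → Fin n → ℂ} {s : Set M} :
    MDifferentiableOn 𝓘(ℂ, E) 𝓘(ℂ, Fin n → ℂ) Φ s ↔
      ∀ i, MDifferentiableOn 𝓘(ℂ, E) 𝓘(ℂ, ℂ) (fun y => Φ y i) s :=
  ⟨fun h i x hx => mdiffWithin_pi.1 (h x hx) i, fun h x hx => mdiffWithin_pi.2 fun i => h i x hx⟩

theorem smooth_prod {X : Set M} (h : IsSmoothHypersurface E X) :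
    IsSmoothHypersurface (E × F) (X ×ˢ (univ : Set K)) := by
  rintro ⟨x, k⟩
  obtain ⟨U, hU, hx, f, hf, hXU, hd⟩ := h x
  refine ⟨U ×ˢ univ, hU.prod isOpen_univ, ⟨hx, trivial⟩, fun p => f p.1, ?_, ?_, ?_⟩
  · exact hf.comp mdiff_fst.mdifferentiableOn fun p hp => hp.1
  · ext ⟨y, l⟩
    have := Set.ext_iff.1 hXU y
    simp only [mem_inter_iff, mem_ofPred_eq] at this
    simp only [mem_inter_iff, mem_prod, mem_univ, and_true, mem_ofPred_eq]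
    exact this
  · rintro ⟨hxX, -⟩ h0
    apply hd hxX
    have h1 : MDifferentiableAt 𝓘(ℂ, E) 𝓘(ℂ, ℂ) f x := (hf x hx).mdifferentiableAt (hU.mem_nhds hx)
    have h2 : MDifferentiableAt 𝓘(ℂ, E × F) 𝓘(ℂ, E) (Prod.fst : M × K → M) (x, k) :=
      mdiff_fst (x, k)
    have h3 : mfderiv 𝓘(ℂ, E × F) 𝓘(ℂ, ℂ) (fun p : M × K => f p.1) (x, k) =
        (mfderiv 𝓘(ℂ, E) 𝓘(ℂ, ℂ) f x).comp
          (mfderiv 𝓘(ℂ, E × F) 𝓘(ℂ, E) (Prod.fst : M × K → M) (x, k)) :=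
      mfderiv_comp (I' := 𝓘(ℂ, E)) (x, k) h1 h2
    have h4 : mfderiv 𝓘(ℂ, E × F) 𝓘(ℂ, E) (Prod.fst : M × K → M) (x, k) =
        ContinuousLinearMap.fst ℂ E F := by
      rw [modelWithCornersSelf_prod]
      exact mfderiv_fst
    rw [h3, h4] at h0
    refine ContinuousLinearMap.ext fun v => ?_
    exact DFunLike.congr_fun h0 ((v, 0) : E × F)

theorem moi_mono {B B' : Type} {g : M → B} {g' : M → B'} {Y : Set M} (h : MoishezonOver E g Y)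
    (hg : ∀ x y, g' x = g' y → g x = g y) : MoishezonOver E g' Y := by
  obtain ⟨N, ι, W, F, O, h1, h2, h3, h4, h5⟩ := h
  exact ⟨N, ι, W, F, O, h1, h2, h3, h4, fun i j x hx y hy hxy => h5 i j x hx y hy (hg x y hxy)⟩

/-- the index set of the Segre coordinates -/
def segEquiv (N N' : ℕ) : Fin (N * N' + N + N' + 1) ≃ Fin (N + 1) × Fin (N' + 1) :=
  (finCongr (by ring)).trans finProdFinEquiv.symm

/-- **Products of Moishezon spaces are Moishezon** (Segre embedding). -/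
theorem moi_prod {g : M → B} {h : K → B'} {Y : Set M} {Z : Set K} (hY : MoishezonOver E g Y)
    (hZ : MoishezonOver F h Z) :
    MoishezonOver (E × F) (fun p : M × K => (g p.1, h p.2)) (Y ×ˢ Z) := by
  obtain ⟨N, ι, W, G, O, a1, a2, a3, a4, a5⟩ := hY
  obtain ⟨N', ι', W', G', O', b1, b2, b3, b4, b5⟩ := hZ
  refine ⟨N * N' + N + N', ι × ι', fun i => W i.1 ×ˢ W' i.2,
    fun i p m => G i.1 p.1 (segEquiv N N' m).1 * G' i.2 p.2 (segEquiv N N' m).2, O ×ˢ O',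
    ⟨fun i => (a1.isOpen i.1).prod (b1.isOpen i.2), ?_, ?_, ?_⟩, a2.prod b2, ?_, ?_, ?_⟩
  · rintro ⟨x, k⟩ ⟨hx, hk⟩
    obtain ⟨i, hi⟩ := mem_iUnion.1 (a1.cover hx)
    obtain ⟨j, hj⟩ := mem_iUnion.1 (b1.cover hk)
    exact mem_iUnion.2 ⟨(i, j), hi, hj⟩
  · rintro ⟨i, j⟩
    have e1 : MDifferentiableOn 𝓘(ℂ, E × F) 𝓘(ℂ, Fin (N + 1) → ℂ) (fun p : M × K => G i p.1)
        (W i ×ˢ W' j) := (a1.holo i).comp mdiff_fst.mdifferentiableOn fun p hp => hp.1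
    have e2 : MDifferentiableOn 𝓘(ℂ, E × F) 𝓘(ℂ, Fin (N' + 1) → ℂ) (fun p : M × K => G' j p.2)
        (W i ×ˢ W' j) := (b1.holo j).comp mdiff_snd.mdifferentiableOn fun p hp => hp.2
    rw [mdiffOn_pi] at e1 e2 ⊢
    intro m
    exact (e1 (segEquiv N N' m).1).mul (e2 (segEquiv N N' m).2)
  · rintro ⟨i, i'⟩ ⟨j, j'⟩ ⟨x, k⟩ ⟨⟨hx, hk⟩, ⟨h1, h1'⟩, ⟨h2, h2'⟩⟩
    obtain ⟨V, u, c1, c2, c3, c4, c5⟩ := a1.trans i j x ⟨hx, h1, h2⟩
    obtain ⟨V', u', d1, d2, d3, d4, d5⟩ := b1.trans i' j' k ⟨hk, h1', h2'⟩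
    refine ⟨V ×ˢ V', fun p => u p.1 * u' p.2, c1.prod d1, ⟨c2, d2⟩, ?_, ?_, ?_⟩
    · rintro ⟨y, l⟩ ⟨hy, hl⟩
      exact ⟨⟨(c3 hy).1, (d3 hl).1⟩, ⟨(c3 hy).2, (d3 hl).2⟩⟩
    · have e1 : MDifferentiableOn 𝓘(ℂ, E × F) 𝓘(ℂ, ℂ) (fun p : M × K => u p.1) (V ×ˢ V') :=
        c4.comp mdiff_fst.mdifferentiableOn fun p hp => hp.1
      have e2 : MDifferentiableOn 𝓘(ℂ, E × F) 𝓘(ℂ, ℂ) (fun p : M × K => u' p.2) (V ×ˢ V') :=
        d4.comp mdiff_snd.mdifferentiableOn fun p hp => hp.2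
      exact e1.mul e2
    · rintro ⟨y, l⟩ ⟨⟨hy, hl⟩, ⟨hy', hl'⟩⟩
      obtain ⟨p1, p2⟩ := c5 y ⟨hy, hy'⟩
      obtain ⟨q1, q2⟩ := d5 l ⟨hl, hl'⟩
      refine ⟨mul_ne_zero p1 q1, ?_⟩
      funext m
      show G i y _ * G' i' l _ = (u y * u' l) • (G j y _ * G' j' l _)
      rw [p2, q2]
      simp only [Pi.smul_apply, smul_eq_mul]
      ring
  · have h1 : (Y ×ˢ Z) ∩ (O ×ˢ O') = (Y ∩ O) ×ˢ (Z ∩ O') := prod_inter_prod
    rw [h1, closure_prod_eq]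
    exact prod_mono a3 b3
  · rintro ⟨i, i'⟩ ⟨x, k⟩ ⟨⟨⟨hx, hk⟩, ⟨hxO, hkO⟩⟩, ⟨hxW, hkW⟩⟩ h0
    obtain ⟨a, ha⟩ := Function.ne_iff.1 (a4 i x ⟨⟨hx, hxO⟩, hxW⟩)
    obtain ⟨b, hb⟩ := Function.ne_iff.1 (b4 i' k ⟨⟨hk, hkO⟩, hkW⟩)
    have := congrFun h0 ((segEquiv N N').symm (a, b))
    simp only [Equiv.apply_symm_apply, Pi.zero_apply, mul_eq_zero] at this
    rcases this with h | h
    · exact ha h
    · exact hb h
  · rintro ⟨i, i'⟩ ⟨j, j'⟩ ⟨x, k⟩ ⟨⟨⟨hx, hk⟩, ⟨hxO, hkO⟩⟩, ⟨hxW, hkW⟩⟩ ⟨y, l⟩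
      ⟨⟨⟨hy, hl⟩, ⟨hyO, hlO⟩⟩, ⟨hyW, hlW⟩⟩ hgh ⟨c, hc⟩
    have hg : g x = g y := congrArg Prod.fst hgh
    have hh : h k = h l := congrArg Prod.snd hgh
    obtain ⟨a, ha⟩ := Function.ne_iff.1 (a4 i x ⟨⟨hx, hxO⟩, hxW⟩)
    obtain ⟨b, hb⟩ := Function.ne_iff.1 (b4 i' k ⟨⟨hk, hkO⟩, hkW⟩)
    simp only [Pi.zero_apply] at ha hb
    have key : ∀ s t, G i x s * G' i' k t = c * (G j y s * G' j' l t) := by
      intro s t
      have := congrFun hc ((segEquiv N N').symm (s, t))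
      simpa using this
    have hxy : x = y := by
      refine a5 i j x ⟨⟨hx, hxO⟩, hxW⟩ y ⟨⟨hy, hyO⟩, hyW⟩ hg ⟨c * G' j' l b / G' i' k b, ?_⟩
      funext s
      simp only [Pi.smul_apply, smul_eq_mul]
      have := key s b
      field_simp
      linear_combination this
    have hkl : k = l := by
      refine b5 i' j' k ⟨⟨hk, hkO⟩, hkW⟩ l ⟨⟨hl, hlO⟩, hlW⟩ hh ⟨c * G j y a / G i x a, ?_⟩
      funext t
      simp only [Pi.smul_apply, smul_eq_mul]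
      have := key a t
      field_simp
      linear_combination this
    rw [hxy, hkl]

/-! ### Slices -/

/-- **Slices.** If `(X × K) ∩ (g × h)⁻¹(U)` is Moishezon over `B × B'`, `(b, b') ∈ U` and `b'` is a
value of `h`, then `X ∩ g⁻¹(U₁)` is Moishezon over `B` for some neighbourhood `U₁` of `b`. -/
theorem moi_slice [SecondCountableTopology M] [BaireSpace K] [TopologicalSpace B]
    [TopologicalSpace B'] {g : M → B} {h : K → B'} (hg : Continuous g) (hh : Continuous h)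
    {X : Set M} {U : Set (B × B')} (hU : IsOpen U) {b : B} {b' : B'} (hb : (b, b') ∈ U)
    (hne : ∀ V : Set B', IsOpen V → b' ∈ V → (h ⁻¹' V).Nonempty)
    (hm : MoishezonOver (E × F) (fun p : M × K => (g p.1, h p.2))
      ((X ×ˢ univ) ∩ (fun p : M × K => (g p.1, h p.2)) ⁻¹' U)) :
    ∃ U₁ : Set B, IsOpen U₁ ∧ b ∈ U₁ ∧ MoishezonOver E g (X ∩ g ⁻¹' U₁) := by
  obtain ⟨N, ι, W, G, O, a1, a2, a3, a4, a5⟩ := hm
  obtain ⟨U₁, U₂, hU₁, hU₂, hb₁, hb₂, hsub⟩ := isOpen_prod_iff.1 hU b b' hb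
  refine ⟨U₁, hU₁, hb₁, ?_⟩
  set Y : Set M := X ∩ g ⁻¹' U₁ with hY
  have hYm : ∀ x ∈ Y, ∀ k ∈ h ⁻¹' U₂, (x, k) ∈ (X ×ˢ univ) ∩
      (fun p : M × K => (g p.1, h p.2)) ⁻¹' U := fun x hx k hk => ⟨⟨hx.1, trivial⟩, hsub ⟨hx.2, hk⟩⟩
  -- a good slice
  obtain ⟨k₀, hk₀, hdense⟩ : ∃ k₀ ∈ h ⁻¹' U₂, Y ⊆ closure (Y ∩ {x | (x, k₀) ∈ O}) := by
    set 𝓑 := TopologicalSpace.countableBasis M
    let D : Set M → Set K := fun V => {k | ∃ x ∈ V ∩ Y, (x, k) ∈ O} ∪ (closure (h ⁻¹' U₂))ᶜ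
    have hDo : ∀ V, IsOpen (D V) := by
      intro V
      refine IsOpen.union ?_ isClosed_closure.isOpen_compl
      have : {k | ∃ x ∈ V ∩ Y, (x, k) ∈ O} = ⋃ x ∈ V ∩ Y, {k | (x, k) ∈ O} := by
        ext k; simp
      rw [this]
      exact isOpen_biUnion fun x _ => a2.preimage (by fun_prop : Continuous fun k : K => (x, k))
    have hDd : ∀ V ∈ 𝓑, (V ∩ Y).Nonempty → Dense (D V) := by
      intro V hV ⟨x, hxV, hxY⟩
      have hVo : IsOpen V := TopologicalSpace.isOpen_of_mem_countableBasis hV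
      rw [dense_iff_inter_open]
      intro A hA hAne
      by_cases hc : (A ∩ h ⁻¹' U₂).Nonempty
      · obtain ⟨k, hkA, hkU⟩ := hc
        have h1 := a3 (hYm x hxY k hkU)
        rw [_root_.mem_closure_iff] at h1
        obtain ⟨⟨x', k'⟩, ⟨⟨hx1, hx2⟩, hk1⟩, hx3, hx4⟩ := h1
          (((V ∩ g ⁻¹' U₁) ×ˢ A)) ((hVo.inter (hU₁.preimage hg)).prod hA) ⟨⟨hxV, hxY.2⟩, hkA⟩
        exact ⟨k', hk1, Or.inl ⟨x', ⟨hx1, hx3.1.1, hx2⟩, hx4⟩⟩
      · obtain ⟨k, hk⟩ := hAne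
        refine ⟨k, hk, Or.inr fun hcl => ?_⟩
        rw [_root_.mem_closure_iff] at hcl
        exact hc (hcl A hA hk)
    have hcount : {V ∈ 𝓑 | (V ∩ Y).Nonempty}.Countable :=
      (TopologicalSpace.countable_countableBasis M).mono (sep_subset _ _)
    have hB : Dense (⋂ V ∈ {V ∈ 𝓑 | (V ∩ Y).Nonempty}, D V) :=
      dense_biInter_of_isOpen (fun V _ => hDo V) hcount fun V hV => hDd V hV.1 hV.2
    obtain ⟨k₀, hk₀U, hk₀⟩ := hB.inter_open_nonempty _ (hU₂.preimage hh) (hne U₂ hU₂ hb₂)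
    refine ⟨k₀, hk₀U, ?_⟩
    intro x hx
    rw [_root_.mem_closure_iff]
    intro A hA hxA
    obtain ⟨V, hV, hxV, hVA⟩ :=
      (TopologicalSpace.isBasis_countableBasis M).exists_subset_of_mem_open hxA hA
    have h1 := mem_iInter₂.1 hk₀ V ⟨hV, ⟨x, hxV, hx⟩⟩
    rcases h1 with ⟨x', ⟨h2, h3⟩, h4⟩ | h1
    · exact ⟨x', hVA h2, h3, h4⟩
    · exact absurd (subset_closure hk₀U) h1
  refine ⟨N, ι, fun i => {x | (x, k₀) ∈ W i}, fun i x => G i (x, k₀), {x | (x, k₀) ∈ O},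
    ⟨?_, ?_, ?_, ?_⟩, a2.preimage (by fun_prop), hdense, ?_, ?_⟩
  · intro i
    exact (a1.isOpen i).preimage (by fun_prop : Continuous fun x : M => (x, k₀))
  · intro x hx
    obtain ⟨i, hi⟩ := mem_iUnion.1 (a1.cover (hYm x hx k₀ hk₀))
    exact mem_iUnion.2 ⟨i, hi⟩
  · intro i
    exact (a1.holo i).comp (mdiff_slice k₀).mdifferentiableOn fun x hx => hx
  · intro i j x hx
    obtain ⟨V, u, c1, c2, c3, c4, c5⟩ := a1.trans i j (x, k₀) ⟨hYm x hx.1 k₀ hk₀, hx.2.1, hx.2.2⟩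
    refine ⟨{x | (x, k₀) ∈ V}, fun x => u (x, k₀),
      c1.preimage (by fun_prop : Continuous fun x : M => (x, k₀)), c2, fun y hy => c3 hy,
      c4.comp (mdiff_slice k₀).mdifferentiableOn fun x hx => hx, ?_⟩
    intro y hy
    exact c5 (y, k₀) ⟨hYm y hy.1 k₀ hk₀, hy.2⟩
  · intro i x hx
    exact a4 i (x, k₀) ⟨⟨hYm x hx.1.1 k₀ hk₀, hx.1.2⟩, hx.2⟩
  · intro i j x hx y hy hxy hc
    have := a5 i j (x, k₀) ⟨⟨hYm x hx.1.1 k₀ hk₀, hx.1.2⟩, hx.2⟩ (y, k₀)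
      ⟨⟨hYm y hy.1.1 k₀ hk₀, hy.1.2⟩, hy.2⟩ (Prod.ext hxy rfl) hc
    exact congrArg Prod.fst this

/-! ### Projective spaces and points -/

theorem moi_point (x : M) : MoishezonOver E (fun _ : M => ()) {x} := by
  refine ⟨0, Unit, fun _ => univ, fun _ _ _ => 1, univ, ⟨fun _ => isOpen_univ, by simp, ?_, ?_⟩,
    isOpen_univ, by simp [subset_closure], ?_, ?_⟩
  · intro i
    exact mdifferentiableOn_const
  · intro i j y _
    exact ⟨univ, fun _ => 1, isOpen_univ, trivial, by simp, mdifferentiableOn_const,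
      fun z _ => ⟨one_ne_zero, by simp⟩⟩
  · intro i y _ h0
    exact one_ne_zero (congrFun h0 0)
  · rintro i j y hy z hz - -
    have h1 : y = x := hy.1.1
    have h2 : z = x := hz.1.1
    rw [h1, h2]

theorem moi_PP (k : ℕ) : MoishezonOver (Fin k → ℂ) (fun _ : PP k => ()) univ := by
  have hd : ∀ c i, MDifferentiableOn 𝓘(ℂ, Fin k → ℂ) 𝓘(ℂ, ℂ)
      (fun m : PP k => vec c (pfwd c m) i) (psrc c) := by
    intro c i
    have h1 : MDifferentiable 𝓘(ℂ, Fin k → ℂ) 𝓘(ℂ, ℂ) (fun p : Fin k → ℂ => vec c p i) :=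
      ((contDiff_vec (n := ω) c i).differentiable
        Pool.Agent.Results.MP_752b71_an.NoExtension.omega_ne_zero).mdifferentiable
    exact h1.comp_mdifferentiableOn ((contMDiffOn_pfwd c).mdifferentiableOn
      Pool.Agent.Results.MP_752b71_an.NoExtension.omega_ne_zero)
  refine ⟨k, Fin (k + 1), psrc, fun c m => vec c (pfwd c m), univ, ⟨isOpen_psrc, ?_, ?_, ?_⟩,
    isOpen_univ, by simp, ?_, ?_⟩
  · intro m _
    exact mem_iUnion.2 (exists_psrc m)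
  · intro c
    exact mdiffOn_pi.2 (hd c)
  · rintro c d m ⟨-, hc, hdm⟩
    refine ⟨psrc c ∩ psrc d, fun m => vec c (pfwd c m) d, (isOpen_psrc c).inter (isOpen_psrc d),
      ⟨hc, hdm⟩, Subset.rfl, (hd c d).mono inter_subset_left, ?_⟩
    rintro y ⟨-, hyc, hyd⟩
    obtain ⟨x, hx, -, hs, hv⟩ := prep y
    have h1 := (hs c).1 hyc
    have h2 := (hs d).1 hyd
    refine ⟨?_, ?_⟩
    · show vec c (pfwd c y) d ≠ 0
      rw [hv c hyc]
      exact div_ne_zero h2 h1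
    · funext i
      show vec c (pfwd c y) i = vec c (pfwd c y) d * vec d (pfwd d y) i
      rw [hv c hyc, hv c hyc, hv d hyd]
      field_simp
  · intro c m _ h0
    have : vec c (pfwd c m) c = 0 := congrFun h0 c
    rw [vec_self] at this
    exact one_ne_zero this
  · rintro c d m ⟨-, hm⟩ m' ⟨-, hm'⟩ - ⟨α, hα⟩
    replace hα : vec c (pfwd c m) = α • vec d (pfwd d m') := hα
    have hα0 : α ≠ 0 := by
      rintro rfl
      have := congrFun hα c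
      rw [vec_self, zero_smul] at this
      exact one_ne_zero this
    rw [← pbwd_pfwd c hm, ← pbwd_pfwd d hm']
    apply Subtype.ext
    show Pool.Agent.Results.MP_752b71_an.NoExtension.prj (vec c (pfwd c m)) =
      Pool.Agent.Results.MP_752b71_an.NoExtension.prj (vec d (pfwd d m'))
    rw [hα]
    exact Pool.Agent.Results.MP_752b71_an.NoExtension.prj_smul _ hα0

end Pool.Agent.KS6_82.Kah
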