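import Mathlib
import Pool.Graph.R_seed8.Y758.MM.Main0
import Pool.Graph.R_seed8.Y758.MM.NZM

/-!
# The map of the earlier run is surjective

The proof is the assembly `main_of_NZM` of the earlier run, with the additional statement that `g`
maps `X` onto `ℂ²`.
-/

set_option autoImplicit false

open Set Filter Topology Metric
open scoped Manifold ContDiff

namespace Pool.Agent.KS6_82.Kah

open Pool.Agent.Y758.MM

theorem surj_g {M : Type} {π : Bool → T → M} {g : M → ℂ × ℂ} (hg : IsG π g) (s : ℂ × ℂ) :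
    ∃ m ∈ XS π, g m = s := by
  obtain ⟨s1, s2⟩ := s
  by_cases h : s1 = 0
  · subst h
    refine ⟨π true (s2, 0, 1, 0), ⟨true, _, rfl, ?_⟩, ?_⟩
    · show (1 : ℂ) ^ 2 = 1 + (0 : ℂ) ^ 6
      norm_num
    · rw [hg.t]
      simp
  · obtain ⟨t, ht⟩ := IsAlgClosed.exists_pow_nat_eq (1 + (s2 / s1) ^ 6) (n := 2) (by norm_num)
    refine ⟨π false (s1, s2 / s1, t, 0), ⟨false, _, rfl, ?_⟩, ?_⟩
    · exact ht
    · rw [hg.f]
      simp only
      rw [mul_div_cancel₀ _ h]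

theorem main_surj : ∃ (M : Type) (_ : TopologicalSpace M) (_ : T2Space M)
    (_ : SecondCountableTopology M) (_ : ChartedSpace T M) (_ : IsManifold 𝓘(ℂ, T) ω M)
    (X : Set M) (g : M → ℂ × ℂ), IsSmoothHypersurface T X ∧
    MDifferentiable 𝓘(ℂ, T) 𝓘(ℂ, ℂ × ℂ) g ∧
    (∀ K : Set (ℂ × ℂ), IsCompact K → IsCompact (X ∩ g ⁻¹' K)) ∧
    (∀ s : ℂ × ℂ, ∃ m ∈ X, g m = s) ∧
    (∀ ε : ℝ, 0 < ε → IsConnected (X ∩ g ⁻¹' ball (0 : ℂ × ℂ) ε)) ∧
    (∀ s : ℂ × ℂ, MoishezonOver T (fun _ : M => ()) (X ∩ g ⁻¹' {s})) ∧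
    ∀ U : Set (ℂ × ℂ), IsOpen U → (0 : ℂ × ℂ) ∈ U → ¬ MoishezonOver T g (X ∩ g ⁻¹' U) := by
  have hEXP : S_EXP := MM_EXP
  have hPARAM : S_PARAM := MM_PARAM
  have hCONN : S_CONN := MM_CONN
  have hRED : S_RED := MM_RED hEXP
  have hRESL : S_RESL := MM_RESL
  have hDISC : S_DISC := MM_DISC hRESL
  have hHUR : S_HUR := MM_HUR hDISC
  have hCNT : S_CNT := MM_CNT hRED hHUR MM_SUM MM_FINZ
  have hRES : S_RES := MM_RES hRED hHUR MM_SUM MM_TOR MM_FINZ hRESL hEXP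
  have hLOC : S_LOC := MM_LOC hPARAM hCNT hRES
  have hCONST : S_CONST := MM_CONST hPARAM hLOC hCONN
  have hREL : S_REL := MM_REL hRESL
  have hPOS : S_POS := MM_POS hPARAM hEXP hCNT
  have hFIN : S_FIN := MM_FIN hPARAM MM_ODD
  have hIDN : S_IDN := MM_IDN hPARAM hCONN
  have hCFP : S_CFP := MM_CFP hEXP
  obtain ⟨M, i1, i2, i3, i4, i5, π, hM⟩ := MM_MFD
  obtain ⟨hX, g, hg, hgd, hsm, hpr⟩ := MM_GEO M π hM
  refine ⟨M, i1, i2, i3, i4, i5, XS π, g, hsm, hgd, hpr, surj_g hg, ?_, ?_, ?_⟩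
  · intro ε hε
    exact CNX.connected hCONN hM hg hε
  · intro s
    by_cases hs : s = 0
    · subst hs
      exact MM_FIB0 MM_ELL M π g hM hg hX
    · exact MM_FIBN MM_ELL M π g hM hg hX s hs
  · intro U hU h0
    exact neg_part MM_UP hIDN (MM_NZM hEXP hPARAM hCONN) hCFP hLOC hCONST hREL hPOS hFIN M π g hM hg
      hX U hU h0

end Pool.Agent.KS6_82.Kah
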