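import Pool.Agent.KS6_82.Kah.Prod

/-!
# Complex projective space is a compact connected Kähler manifold
-/

set_option autoImplicit false

open Filter Metric Set Topology
open scoped ComplexConjugate Manifold ContDiff

namespace Pool.Agent.KS6_82.Kah

open Pool.Agent.Results.MP_752b71_an.NoExtension (prj sum_normSq_pos prj_smul prj_diag_ne prj_ratio
  ne_zero_of_apply continuous_prj_comp omega_ne_zero IsHolDisc laplaceAtZero IsKahlerSubmanifold
  laplace_log_pos laplace_log_normSq contDiff_normSq)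

/-- Complex projective space of dimension `k`, the space of the orthogonal projections onto the
lines of `ℂ^(k+1)`. -/
def PP (k : ℕ) : Type :=
  {m : Fin (k + 1) → Fin (k + 1) → ℂ // ∃ x : Fin (k + 1) → ℂ, x ≠ 0 ∧ m = prj x}

variable {k : ℕ}

instance : TopologicalSpace (PP k) := inferInstanceAs (TopologicalSpace (Subtype _))
instance : T2Space (PP k) := inferInstanceAs (T2Space (Subtype _))
instance : SecondCountableTopology (PP k) :=
  inferInstanceAs (SecondCountableTopology (Subtype _))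

/-- The vector with the coordinate `1` at `c` and the other coordinates `p`. -/
def vec (c : Fin (k + 1)) (p : Fin k → ℂ) : Fin (k + 1) → ℂ := c.insertNth (α := fun _ => ℂ) 1 p

theorem vec_self (c : Fin (k + 1)) (p : Fin k → ℂ) : vec c p c = 1 := by
  simp [vec]

theorem vec_succAbove (c : Fin (k + 1)) (p : Fin k → ℂ) (j : Fin k) :
    vec c p (c.succAbove j) = p j := by
  simp [vec]

theorem vec_self_ne (c : Fin (k + 1)) (p : Fin k → ℂ) : vec c p c ≠ 0 := by
  rw [vec_self]; exact one_ne_zero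

theorem contDiff_vec {n : WithTop ℕ∞} (c i : Fin (k + 1)) : ContDiff ℂ n (fun p => vec c p i) := by
  rcases Fin.eq_self_or_eq_succAbove c i with rfl | ⟨j, rfl⟩
  · simp only [vec_self]; exact contDiff_const
  · simp only [vec_succAbove]; exact contDiff_apply ℂ ℂ j

/-- the inverse of the chart `c` -/
noncomputable def pbwd (c : Fin (k + 1)) (p : Fin k → ℂ) : PP k :=
  ⟨prj (vec c p), vec c p, ne_zero_of_apply (vec_self_ne c p), rfl⟩

/-- the chart `c` -/
noncomputable def pfwd (c : Fin (k + 1)) (m : PP k) : Fin k → ℂ :=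
  fun j => m.1 (c.succAbove j) c / m.1 c c

def psrc (c : Fin (k + 1)) : Set (PP k) := {m | m.1 c c ≠ 0}

theorem pcont_coord (i j : Fin (k + 1)) : Continuous fun m : PP k => m.1 i j :=
  (continuous_apply j).comp ((continuous_apply i).comp continuous_subtype_val)

theorem isOpen_psrc (c : Fin (k + 1)) : IsOpen (psrc c) :=
  isOpen_ne_fun (pcont_coord _ _) continuous_const

theorem pfwd_pbwd (c : Fin (k + 1)) (p : Fin k → ℂ) : pfwd c (pbwd c p) = p := by
  funext j
  show prj (vec c p) (c.succAbove j) c / prj (vec c p) c c = p j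
  rw [prj_ratio (vec_self_ne c p), vec_self, vec_succAbove, div_one]

theorem pbwd_mem (c : Fin (k + 1)) (p : Fin k → ℂ) : pbwd c p ∈ psrc c :=
  prj_diag_ne.2 (vec_self_ne c p)

/-- homogeneous coordinates -/
theorem prep (m : PP k) : ∃ x : Fin (k + 1) → ℂ, x ≠ 0 ∧ m.1 = prj x ∧
    (∀ c, m ∈ psrc c ↔ x c ≠ 0) ∧ ∀ c, m ∈ psrc c → ∀ i, vec c (pfwd c m) i = x i / x c := by
  obtain ⟨m, x, hx, rfl⟩ := m
  refine ⟨x, hx, rfl, fun c => prj_diag_ne, fun c hc i => ?_⟩
  have hc' : x c ≠ 0 := prj_diag_ne.1 hc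
  rcases Fin.eq_self_or_eq_succAbove c i with rfl | ⟨j, rfl⟩
  · rw [vec_self, div_self hc']
  · rw [vec_succAbove]
    exact prj_ratio hc' _

theorem pbwd_pfwd (c : Fin (k + 1)) {m : PP k} (hm : m ∈ psrc c) : pbwd c (pfwd c m) = m := by
  obtain ⟨x, hx, hmx, hs, hv⟩ := prep m
  have hc := (hs c).1 hm
  apply Subtype.ext
  show prj (vec c (pfwd c m)) = m.1
  rw [hmx, ← prj_smul (vec c (pfwd c m)) hc]
  congr 1
  funext i
  rw [hv c hm i, mul_div_cancel₀ _ hc]

theorem continuous_vec (c : Fin (k + 1)) : Continuous (vec c) :=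
  continuous_pi fun i => (contDiff_vec (n := ω) c i).continuous

theorem continuous_pbwd (c : Fin (k + 1)) : Continuous (pbwd c) :=
  Continuous.subtype_mk (continuous_prj_comp _ c (continuous_vec c) fun p => vec_self_ne c p) _

theorem continuousOn_pfwd (c : Fin (k + 1)) : ContinuousOn (pfwd c) (psrc c) :=
  continuousOn_pi.2 fun _ =>
    (pcont_coord _ _).continuousOn.div (pcont_coord _ _).continuousOn fun _ hm => hm

/-- the chart `c` -/
noncomputable def pch (c : Fin (k + 1)) : OpenPartialHomeomorph (PP k) (Fin k → ℂ) where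
  toFun := pfwd c
  invFun := pbwd c
  source := psrc c
  target := univ
  map_source' := fun _ _ => trivial
  map_target' := fun p _ => pbwd_mem c p
  left_inv' := fun _ hm => pbwd_pfwd c hm
  right_inv' := fun p _ => pfwd_pbwd c p
  open_source := isOpen_psrc c
  open_target := isOpen_univ
  continuousOn_toFun := continuousOn_pfwd c
  continuousOn_invFun := (continuous_pbwd c).continuousOn

/-- a largest homogeneous coordinate -/
theorem exists_psrc' (m : PP k) : ∃ c, m ∈ psrc c ∧ ∀ j, ‖pfwd c m j‖ ≤ 1 := by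
  obtain ⟨x, hx, hmx, hs, hv⟩ := prep m
  obtain ⟨c, hc⟩ := Finite.exists_max (fun i => ‖x i‖)
  have hc0 : x c ≠ 0 := by
    intro h0
    apply hx
    funext i
    have := hc i
    simp only [h0, norm_zero] at this
    exact norm_le_zero_iff.1 this
  have hm := (hs c).2 hc0
  refine ⟨c, hm, fun j => ?_⟩
  rw [← vec_succAbove c (pfwd c m) j, hv c hm, norm_div]
  exact div_le_one_of_le₀ (hc _) (norm_nonneg _)

theorem exists_psrc (m : PP k) : ∃ c, m ∈ psrc c :=
  (exists_psrc' m).imp fun _ h => h.1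

noncomputable instance : ChartedSpace (Fin k → ℂ) (PP k) where
  atlas := Set.range pch
  chartAt m := pch (Classical.choose (exists_psrc m))
  mem_chart_source m := Classical.choose_spec (exists_psrc m)
  chart_mem_atlas _ := ⟨_, rfl⟩

theorem pbwd_mem_iff (c d : Fin (k + 1)) (p : Fin k → ℂ) : pbwd c p ∈ psrc d ↔ vec c p d ≠ 0 :=
  prj_diag_ne

instance : IsManifold 𝓘(ℂ, Fin k → ℂ) ω (PP k) := by
  refine isManifold_of_contDiffOn _ _ _ ?_
  rintro _ _ ⟨c, rfl⟩ ⟨d, rfl⟩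
  have hs : (𝓘(ℂ, Fin k → ℂ).symm ⁻¹' ((pch c).symm ≫ₕ pch d).source ∩
      Set.range 𝓘(ℂ, Fin k → ℂ)) ⊆ {p : Fin k → ℂ | vec c p d ≠ 0} := by
    rintro p ⟨hp, _⟩
    have hp' : p ∈ ((pch c).symm ≫ₕ pch d).source := hp
    rw [OpenPartialHomeomorph.trans_source] at hp'
    exact (pbwd_mem_iff c d p).1 hp'.2
  have hF : ContDiffOn ℂ ω (fun p : Fin k → ℂ => fun j => vec c p (d.succAbove j) / vec c p d)
      {p : Fin k → ℂ | vec c p d ≠ 0} :=
    contDiffOn_pi.2 fun j => (contDiff_vec c _).contDiffOn.div (contDiff_vec c _).contDiffOn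
      fun p hp => hp
  refine (hF.mono hs).congr fun p hp => ?_
  have h1 := hs hp
  funext j
  exact prj_ratio h1 _

theorem pmem_atlas (c : Fin (k + 1)) : pch c ∈ atlas (Fin k → ℂ) (PP k) := ⟨c, rfl⟩

theorem contMDiffOn_pfwd (c : Fin (k + 1)) :
    ContMDiffOn 𝓘(ℂ, Fin k → ℂ) 𝓘(ℂ, Fin k → ℂ) ω (pfwd c) (psrc c) :=
  contMDiffOn_of_mem_maximalAtlas (e := pch c) (IsManifold.subset_maximalAtlas (pmem_atlas c))

theorem contMDiff_pbwd (c : Fin (k + 1)) :
    ContMDiff 𝓘(ℂ, Fin k → ℂ) 𝓘(ℂ, Fin k → ℂ) ω (pbwd c) := by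
  rw [← contMDiffOn_univ]
  exact contMDiffOn_symm_of_mem_maximalAtlas (e := pch c)
    (IsManifold.subset_maximalAtlas (pmem_atlas c))

instance : CompactSpace (PP k) := by
  constructor
  have h1 : (univ : Set (PP k)) = ⋃ c : Fin (k + 1), pbwd c '' (closedBall 0 1) := by
    symm
    rw [eq_univ_iff_forall]
    intro m
    obtain ⟨c, hc, h2⟩ := exists_psrc' m
    refine mem_iUnion.2 ⟨c, pfwd c m, ?_, pbwd_pfwd c hc⟩
    rw [mem_closedBall_zero_iff, pi_norm_le_iff_of_nonneg zero_le_one]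
    exact h2
  rw [h1]
  exact isCompact_iUnion fun c => (isCompact_closedBall _ _).image (continuous_pbwd c)

instance : ConnectedSpace (PP k) := by
  have h1 : (univ : Set (PP k)) = ⋃ c : Fin (k + 1), pbwd c '' univ := by
    symm
    rw [eq_univ_iff_forall]
    intro m
    obtain ⟨c, hc⟩ := exists_psrc m
    exact mem_iUnion.2 ⟨c, pfwd c m, trivial, pbwd_pfwd c hc⟩
  set b : PP k := pbwd 0 (fun _ => 1) with hb
  have hmem : ∀ c, b ∈ pbwd c '' univ := by
    intro c
    refine ⟨pfwd c b, trivial, pbwd_pfwd c ?_⟩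
    rw [hb, pbwd_mem_iff]
    rcases Fin.eq_self_or_eq_succAbove (0 : Fin (k + 1)) c with rfl | ⟨j, rfl⟩
    · exact vec_self_ne _ _
    · rw [vec_succAbove]; exact one_ne_zero
  rw [connectedSpace_iff_univ, h1]
  refine ⟨⟨b, mem_iUnion.2 ⟨0, hmem 0⟩⟩, ?_⟩
  exact isPreconnected_iUnion ⟨b, mem_iInter.2 hmem⟩ fun c =>
    isPreconnected_univ.image _ (continuous_pbwd c).continuousOn

/-! ### The Fubini–Study metric -/

noncomputable def prho (c : Fin (k + 1)) (p : Fin k → ℂ) : ℝ :=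
  Real.log (∑ i, Complex.normSq (vec c p i))

theorem contDiff_prho (c : Fin (k + 1)) : ContDiff ℝ ∞ (prho c) := by
  unfold prho
  refine ContDiff.log ?_ (fun p => (sum_normSq_pos (vec_self_ne c p)).ne')
  refine ContDiff.sum fun i _ => ?_
  exact contDiff_normSq.comp (((contDiff_vec (n := ∞) c i).restrict_scalars ℝ))

theorem realify' {E F X Y : Type} [NormedAddCommGroup E] [NormedSpace ℂ E] [NormedAddCommGroup F]
    [NormedSpace ℂ F] [TopologicalSpace X] [ChartedSpace E X] [TopologicalSpace Y]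
    [ChartedSpace F Y] {f : X → Y} {s : Set X} {n : WithTop ℕ∞}
    (hf : ContMDiffOn 𝓘(ℂ, E) 𝓘(ℂ, F) n f s) : ContMDiffOn 𝓘(ℝ, E) 𝓘(ℝ, F) n f s := by
  intro x hx
  have h := hf x hx
  rw [contMDiffWithinAt_iff] at h ⊢
  exact ⟨h.1, h.2.restrict_scalars ℝ⟩

theorem contMDiffOn_prho (c : Fin (k + 1)) :
    ContMDiffOn 𝓘(ℝ, Fin k → ℂ) 𝓘(ℝ, ℝ) ∞ (fun m => prho c (pfwd c m)) (psrc c) := by
  have h1 : ContMDiffOn 𝓘(ℝ, Fin k → ℂ) 𝓘(ℝ, Fin k → ℂ) ∞ (pfwd c) (psrc c) :=
    (realify' (contMDiffOn_pfwd c)).of_le le_top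
  have h2 : ContMDiffOn 𝓘(ℝ, Fin k → ℂ) 𝓘(ℝ, ℝ) ∞ (prho c) Set.univ :=
    contMDiffOn_iff_contDiffOn.2 (contDiff_prho c).contDiffOn
  exact h2.comp h1 (fun _ _ => Set.mem_univ _)

theorem pdisc_coord {c : Fin (k + 1)} {S : Set (PP k)} (hS : S ⊆ psrc c) {r : ℝ} {f : ℂ → PP k}
    (hf : IsHolDisc (Fin k → ℂ) S r f) : DifferentiableOn ℂ (fun ζ => pfwd c (f ζ)) (ball 0 r) := by
  have h1 : ContMDiffOn 𝓘(ℂ, ℂ) 𝓘(ℂ, Fin k → ℂ) ω (fun ζ => pfwd c (f ζ)) (ball 0 r) :=
    (contMDiffOn_pfwd c).comp hf.1 (fun ζ hζ => hS (hf.2 hζ))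
  exact (contMDiffOn_iff_contDiffOn.1 h1).differentiableOn omega_ne_zero

theorem pderiv_coord_ne_zero {c : Fin (k + 1)} {S : Set (PP k)} (hS : S ⊆ psrc c) {r : ℝ}
    (hr : 0 < r) {f : ℂ → PP k} (hf : IsHolDisc (Fin k → ℂ) S r f)
    (hd : mfderiv 𝓘(ℂ, ℂ) 𝓘(ℂ, Fin k → ℂ) f 0 ≠ 0) :
    fderiv ℂ (fun ζ => pfwd c (f ζ)) 0 ≠ 0 := by
  intro h0
  apply hd
  set u : ℂ → (Fin k → ℂ) := fun ζ => pfwd c (f ζ) with hu
  have hmem : (0 : ℂ) ∈ ball (0 : ℂ) r := mem_ball_self hr
  have h1 : f =ᶠ[𝓝 0] (pbwd c ∘ u) := by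
    filter_upwards [isOpen_ball.mem_nhds hmem] with ζ hζ
    exact (pbwd_pfwd c (hS (hf.2 hζ))).symm
  have h2 : DifferentiableAt ℂ u 0 :=
    (pdisc_coord hS hf).differentiableAt (isOpen_ball.mem_nhds hmem)
  have h3 : MDifferentiableAt 𝓘(ℂ, Fin k → ℂ) 𝓘(ℂ, Fin k → ℂ) (pbwd c) (u 0) :=
    (contMDiff_pbwd c).mdifferentiable omega_ne_zero (u 0)
  have h4 := mfderiv_comp (0 : ℂ) h3 h2.mdifferentiableAt
  rw [mfderiv_eq_fderiv, h0] at h4
  rw [h1.mfderiv_eq, h4]
  exact ContinuousLinearMap.comp_zero _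

theorem kahler_PP : IsKahlerSubmanifold (Fin k → ℂ) (univ : Set (PP k)) := by
  refine ⟨Fin (k + 1), psrc, fun c m => prho c (pfwd c m), isOpen_psrc,
    fun x _ => exists_psrc x, contMDiffOn_prho, ?_, ?_⟩
  · intro c r f hr hf hd
    have hS : psrc c ∩ univ ⊆ psrc c := Set.inter_subset_left
    have hu := pdisc_coord hS hf
    have hne := pderiv_coord_ne_zero hS hr hf hd
    set u : ℂ → (Fin k → ℂ) := fun ζ => pfwd c (f ζ) with hudef
    have hmem : (0 : ℂ) ∈ ball (0 : ℂ) r := mem_ball_self hr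
    have hu0 : DifferentiableAt ℂ u 0 := hu.differentiableAt (isOpen_ball.mem_nhds hmem)
    have hF : ∀ i, DifferentiableOn ℂ (fun ζ => vec c (u ζ) i) (ball 0 r) := fun i =>
      ((contDiff_vec (n := ω) c i).differentiable omega_ne_zero).comp_differentiableOn hu
    obtain ⟨j, hj⟩ : ∃ j, fderiv ℂ u 0 1 j ≠ 0 := by
      by_contra hcon
      push Not at hcon
      apply hne
      ext1
      funext j
      exact hcon j
    have d1 : HasDerivAt (fun ζ => u ζ j) (fderiv ℂ u 0 1 j) 0 :=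
      (hasDerivAt_pi.1 hu0.hasFDerivAt.hasDerivAt) j
    exact laplace_log_pos (fun i ζ => vec c (u ζ) i) hr hF c (fun ζ _ => vec_self c _)
      (c.succAbove j) (by simp only [vec_succAbove]; rw [d1.deriv]; exact hj)
  · intro c d r f hr hf
    have hS : psrc c ∩ psrc d ∩ univ ⊆ psrc c := fun x hx => hx.1.1
    have hu := pdisc_coord hS hf
    set h : ℂ → ℂ := fun ζ => vec c (pfwd c (f ζ)) d with hh
    have hhd : DifferentiableOn ℂ h (ball 0 r) :=
      ((contDiff_vec (n := ω) c d).differentiable omega_ne_zero).comp_differentiableOn hu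
    have hmem : (0 : ℂ) ∈ ball (0 : ℂ) r := mem_ball_self hr
    have key : ∀ ζ ∈ ball (0 : ℂ) r, h ζ ≠ 0 ∧ prho c (pfwd c (f ζ)) - prho d (pfwd d (f ζ)) =
        Real.log (Complex.normSq (h ζ)) := by
      intro ζ hζ
      have hm := hf.2 hζ
      obtain ⟨x, hx, _, hiff, hrep⟩ := prep (f ζ)
      have hcx := (hiff c).1 hm.1.1
      have hdx := (hiff d).1 hm.1.2
      have rc := hrep c hm.1.1
      have rd := hrep d hm.1.2
      have hne : h ζ ≠ 0 := by
        simp only [hh, rc]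
        exact div_ne_zero hdx hcx
      refine ⟨hne, ?_⟩
      have hs : ∀ i, vec c (pfwd c (f ζ)) i = h ζ * vec d (pfwd d (f ζ)) i := by
        intro i
        simp only [hh, rc, rd]
        field_simp
      have hsum : ∑ i, Complex.normSq (vec c (pfwd c (f ζ)) i) =
          Complex.normSq (h ζ) * ∑ i, Complex.normSq (vec d (pfwd d (f ζ)) i) := by
        rw [Finset.mul_sum]
        exact Finset.sum_congr rfl fun i _ => by rw [hs i, map_mul]
      unfold prho
      rw [hsum, Real.log_mul (Complex.normSq_pos.2 hne).ne'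
        (sum_normSq_pos (vec_self_ne d _)).ne']
      ring
    have h0 := laplace_log_normSq hr hhd (key 0 hmem).1
    rw [← h0]
    apply laplace_congr
    filter_upwards [isOpen_ball.mem_nhds hmem] with ζ hζ
    exact (key ζ hζ).2

end Pool.Agent.KS6_82.Kah
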