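import Pool.Graph.R_seed8.Results.MP_752b71_an.NoExtension

/-!
# Products of Kähler families with a compact Kähler manifold

Helper file for `MP_752b71_an`.
-/

set_option autoImplicit false

open Filter Metric Set Topology
open scoped ComplexConjugate Manifold ContDiff

namespace Pool.Agent.KS6_82.Kah

open Pool.Agent.Results.MP_752b71_an.NoExtension

variable {E F : Type} [NormedAddCommGroup E] [NormedSpace ℂ E] [NormedAddCommGroup F]
  [NormedSpace ℂ F]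
variable {X K : Type} [TopologicalSpace X] [ChartedSpace E X] [TopologicalSpace K]
  [ChartedSpace F K]

/-- The product of two complex manifolds, as a manifold modelled on `E × F`. -/
instance prodCS : ChartedSpace (E × F) (X × K) := prodChartedSpace E X F K

instance prodManifold [IsManifold 𝓘(ℂ, E) ω X] [IsManifold 𝓘(ℂ, F) ω K] :
    IsManifold 𝓘(ℂ, E × F) ω (X × K) := by
  rw [modelWithCornersSelf_prod]
  exact IsManifold.prod X K

theorem contMDiff_fst' {n : WithTop ℕ∞} :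
    ContMDiff 𝓘(ℂ, E × F) 𝓘(ℂ, E) n (Prod.fst : X × K → X) := by
  rw [modelWithCornersSelf_prod]
  exact contMDiff_fst

theorem contMDiff_snd' {n : WithTop ℕ∞} :
    ContMDiff 𝓘(ℂ, E × F) 𝓘(ℂ, F) n (Prod.snd : X × K → K) := by
  rw [modelWithCornersSelf_prod]
  exact contMDiff_snd

theorem contMDiff_fstR {n : WithTop ℕ∞} :
    ContMDiff 𝓘(ℝ, E × F) 𝓘(ℝ, E) n (Prod.fst : X × K → X) := by
  rw [modelWithCornersSelf_prod]
  exact contMDiff_fst

theorem contMDiff_sndR {n : WithTop ℕ∞} :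
    ContMDiff 𝓘(ℝ, E × F) 𝓘(ℝ, F) n (Prod.snd : X × K → K) := by
  rw [modelWithCornersSelf_prod]
  exact contMDiff_snd

theorem contMDiffOn_prodMk {n : WithTop ℕ∞} {f : ℂ → X} {g : ℂ → K} {s : Set ℂ}
    (hf : ContMDiffOn 𝓘(ℂ, ℂ) 𝓘(ℂ, E) n f s) (hg : ContMDiffOn 𝓘(ℂ, ℂ) 𝓘(ℂ, F) n g s) :
    ContMDiffOn 𝓘(ℂ, ℂ) 𝓘(ℂ, E × F) n (fun z => (f z, g z)) s := by
  rw [modelWithCornersSelf_prod]
  exact hf.prodMk hg

theorem mfderiv_pair {f : ℂ → X} {g : ℂ → K} {z : ℂ}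
    (hf : MDifferentiableAt 𝓘(ℂ, ℂ) 𝓘(ℂ, E) f z) (hg : MDifferentiableAt 𝓘(ℂ, ℂ) 𝓘(ℂ, F) g z)
    (h1 : mfderiv 𝓘(ℂ, ℂ) 𝓘(ℂ, E) f z = 0) (h2 : mfderiv 𝓘(ℂ, ℂ) 𝓘(ℂ, F) g z = 0) :
    mfderiv 𝓘(ℂ, ℂ) 𝓘(ℂ, E × F) (fun z => (f z, g z)) z = 0 := by
  have h := MDifferentiableAt.mfderiv_prod hf hg
  rw [modelWithCornersSelf_prod]
  rw [h, h1, h2]
  rfl

/-! ### Laplacians along holomorphic discs -/

theorem realify {f : ℂ → X} {s : Set ℂ} {n : WithTop ℕ∞}
    (hf : ContMDiffOn 𝓘(ℂ, ℂ) 𝓘(ℂ, E) n f s) : ContMDiffOn 𝓘(ℝ, ℂ) 𝓘(ℝ, E) n f s := by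
  intro x hx
  have h := hf x hx
  rw [contMDiffWithinAt_iff] at h ⊢
  exact ⟨h.1, h.2.restrict_scalars ℝ⟩

/-- A smooth function is smooth along the real lines of a holomorphic disc. -/
theorem contDiffAt_line {ρ : X → ℝ} {V : Set X}
    (hρ : ContMDiffOn 𝓘(ℝ, E) 𝓘(ℝ, ℝ) ∞ ρ V) {f : ℂ → X} {r : ℝ} (hr : 0 < r)
    (hf : IsHolDisc E V r f) (d : ℂ) :
    ContDiffAt ℝ 2 (fun s : ℝ => ρ (f ((s : ℂ) * d))) 0 := by
  have h1 : ContMDiffOn 𝓘(ℝ, ℂ) 𝓘(ℝ, E) ∞ f (ball 0 r) := (realify hf.1).of_le (by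
    exact le_top)
  have h2 : ContMDiffOn 𝓘(ℝ, ℂ) 𝓘(ℝ, ℝ) ∞ (ρ ∘ f) (ball 0 r) := hρ.comp h1 hf.2
  have h3 : ContDiffOn ℝ ∞ (ρ ∘ f) (ball 0 r) := contMDiffOn_iff_contDiffOn.1 h2
  have h4 : ContDiffAt ℝ ∞ (ρ ∘ f) ((fun s : ℝ => (s : ℂ) * d) 0) := by
    simp only [Complex.ofReal_zero, zero_mul]
    exact h3.contDiffAt (ball_mem_nhds 0 hr)
  have h5 : ContDiffAt ℝ ∞ (fun s : ℝ => (s : ℂ) * d) 0 :=
    (Complex.ofRealCLM.contDiff.mul contDiff_const).contDiffAt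
  exact (h4.comp (0 : ℝ) h5).of_le (WithTop.coe_le_coe.2 le_top)

theorem laplace_add {u v : ℂ → ℝ}
    (hu : ∀ d : ℂ, ContDiffAt ℝ 2 (fun s : ℝ => u ((s : ℂ) * d)) 0)
    (hv : ∀ d : ℂ, ContDiffAt ℝ 2 (fun s : ℝ => v ((s : ℂ) * d)) 0) :
    laplaceAtZero (fun z => u z + v z) = laplaceAtZero u + laplaceAtZero v := by
  unfold laplaceAtZero
  have hu1 : ContDiffAt ℝ 2 (fun s : ℝ => u (s : ℂ)) 0 := by simpa using hu 1
  have hv1 : ContDiffAt ℝ 2 (fun s : ℝ => v (s : ℂ)) 0 := by simpa using hv 1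
  have e1 := iteratedDeriv_fun_add (n := 2) (by exact_mod_cast hu1) (by exact_mod_cast hv1)
  have e2 := iteratedDeriv_fun_add (n := 2) (by exact_mod_cast hu Complex.I)
    (by exact_mod_cast hv Complex.I)
  rw [e1, e2]
  ring

/-- The Laplacian of a composition vanishes where the derivative of the disc vanishes
(in a vector space). -/
theorem laplace_zero_vec [CompleteSpace E] {R : E → ℝ} {g : ℂ → E} {r : ℝ} (hr : 0 < r)
    (hg : DifferentiableOn ℂ g (ball 0 r)) (hR : ContDiffAt ℝ ∞ R (g 0)) (h0 : deriv g 0 = 0) :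
    laplaceAtZero (fun z => R (g z)) = 0 := by
  have hopen : IsOpen (ball (0 : ℂ) r) := isOpen_ball
  have hdg : DifferentiableOn ℂ (deriv g) (ball 0 r) := hg.deriv hopen
  have key : ∀ d : ℂ, ‖d‖ = 1 → iteratedDeriv 2 (fun s : ℝ => R (g ((s : ℂ) * d))) 0 =
      fderiv ℝ R (g 0) ((d * d) • deriv (deriv g) 0) := by
    intro d hd
    have hmem : ∀ s : ℝ, |s| < r → (s : ℂ) * d ∈ ball (0 : ℂ) r := by
      intro s hs; simp [hd, hs]
    have hl : ∀ s : ℝ, HasDerivAt (fun s : ℝ => (s : ℂ) * d) d s := by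
      intro s
      simpa using (Complex.ofRealCLM.hasDerivAt (x := s)).mul_const d
    have hline : ∀ (g : ℂ → E), DifferentiableOn ℂ g (ball 0 r) → ∀ s : ℝ, |s| < r →
        HasDerivAt (fun s : ℝ => g ((s : ℂ) * d)) (d • deriv g ((s : ℂ) * d)) s := by
      intro g hg s hs
      have h1 : HasDerivAt g (deriv g ((s : ℂ) * d)) ((s : ℂ) * d) :=
        (hg.differentiableAt (hopen.mem_nhds (hmem s hs))).hasDerivAt
      exact h1.scomp s (hl s)
    have hsmall : ∀ᶠ s : ℝ in 𝓝 (0 : ℝ), |s| < r := by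
      have : ContinuousAt (fun s : ℝ => |s|) 0 := continuous_abs.continuousAt
      exact this.eventually (gt_mem_nhds (by simpa using hr))
    have hcont : ContinuousAt (fun s : ℝ => g ((s : ℂ) * d)) 0 :=
      (hline g hg 0 (by simpa using hr)).continuousAt
    have hR1 : ∀ᶠ y in 𝓝 (g 0), ContDiffAt ℝ 1 R y :=
      (hR.of_le (by exact_mod_cast le_top)).eventually (by simp)
    have hR1' : ∀ᶠ s : ℝ in 𝓝 (0 : ℝ), ContDiffAt ℝ 1 R (g ((s : ℂ) * d)) := by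
      have := hcont.tendsto
      simp only [Complex.ofReal_zero, zero_mul] at this
      exact this.eventually hR1
    rw [iteratedDeriv_succ, iteratedDeriv_one]
    have heq : deriv (fun s : ℝ => R (g ((s : ℂ) * d))) =ᶠ[𝓝 0]
        fun s => fderiv ℝ R (g ((s : ℂ) * d)) (d • deriv g ((s : ℂ) * d)) := by
      filter_upwards [hsmall, hR1'] with s hs hRs
      exact ((hRs.differentiableAt (by simp)).hasFDerivAt.comp_hasDerivAt s
        (hline g hg s hs)).deriv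
    rw [heq.deriv_eq]
    have hfd : ContDiffAt ℝ 1 (fderiv ℝ R) (g 0) :=
      hR.fderiv_right (m := 1) (by norm_cast)
    have hc : HasDerivAt (fun s : ℝ => fderiv ℝ R (g ((s : ℂ) * d)))
        (fderiv ℝ (fderiv ℝ R) (g 0) (d • deriv g 0)) 0 := by
      have h1 : HasFDerivAt (fderiv ℝ R) (fderiv ℝ (fderiv ℝ R) (g 0)) (g (((0 : ℝ) : ℂ) * d)) := by
        simp only [Complex.ofReal_zero, zero_mul]
        exact (hfd.differentiableAt (by simp)).hasFDerivAt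
      have h2 := h1.comp_hasDerivAt (0 : ℝ) (hline g hg 0 (by simpa using hr))
      simp only [Complex.ofReal_zero, zero_mul] at h2
      exact h2
    have hv : HasDerivAt (fun s : ℝ => d • deriv g ((s : ℂ) * d))
        (d • d • deriv (deriv g) 0) 0 := by
      have h2 := (hline (deriv g) hdg 0 (by simpa using hr)).const_smul d
      simp only [Complex.ofReal_zero, zero_mul] at h2
      exact h2
    have h3 := hc.clm_apply hv
    simp only [Complex.ofReal_zero, zero_mul, h0, smul_zero, map_zero, zero_add] at h3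
    rw [h3.deriv, smul_smul]
  unfold laplaceAtZero
  have k1 := key 1 (by simp)
  have k2 := key Complex.I (by simp)
  simp only [mul_one] at k1
  rw [k1, k2, Complex.I_mul_I, one_smul, neg_smul, one_smul, map_neg, add_neg_cancel]

theorem laplace_congr {u v : ℂ → ℝ} (h : u =ᶠ[𝓝 0] v) : laplaceAtZero u = laplaceAtZero v := by
  unfold laplaceAtZero
  have h1 : Tendsto (fun s : ℝ => (s : ℂ)) (𝓝 0) (𝓝 0) := by
    have : Continuous (fun s : ℝ => (s : ℂ)) := Complex.continuous_ofReal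
    simpa using this.tendsto 0
  have h2 : Tendsto (fun s : ℝ => (s : ℂ) * Complex.I) (𝓝 0) (𝓝 0) := by
    have : Continuous (fun s : ℝ => (s : ℂ) * Complex.I) := by fun_prop
    simpa using this.tendsto 0
  have e1 : (fun s : ℝ => u (s : ℂ)) =ᶠ[𝓝 0] fun s : ℝ => v (s : ℂ) := h1.eventually h
  have e2 : (fun s : ℝ => u ((s : ℂ) * Complex.I)) =ᶠ[𝓝 0] fun s : ℝ => v ((s : ℂ) * Complex.I) :=
    h2.eventually h
  rw [e1.iteratedDeriv_eq, e2.iteratedDeriv_eq]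

/-- The Laplacian of a smooth function along a holomorphic disc vanishes where the derivative of the
disc vanishes. -/
theorem laplace_zero [CompleteSpace E] [IsManifold 𝓘(ℂ, E) ω X] {ρ : X → ℝ} {V : Set X}
    (hV : IsOpen V) (hρ : ContMDiffOn 𝓘(ℝ, E) 𝓘(ℝ, ℝ) ∞ ρ V) {f : ℂ → X} {r : ℝ} (hr : 0 < r)
    (hf : IsHolDisc E V r f) (h0 : mfderiv 𝓘(ℂ, ℂ) 𝓘(ℂ, E) f 0 = 0) :
    laplaceAtZero (fun z => ρ (f z)) = 0 := by
  have h0r : (0 : ℂ) ∈ ball (0 : ℂ) r := mem_ball_self hr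
  have hfc : ContinuousAt f 0 := (hf.1.continuousOn).continuousAt (ball_mem_nhds 0 hr)
  set e := extChartAt 𝓘(ℂ, E) (f 0) with he
  have hsrc : e.source ∈ 𝓝 (f 0) := extChartAt_source_mem_nhds (I := 𝓘(ℂ, E)) (f 0)
  have hev : ∀ᶠ z in 𝓝 (0 : ℂ), f z ∈ e.source := hfc.eventually hsrc
  obtain ⟨r', hr', hb⟩ := Metric.eventually_nhds_iff_ball.1
    (hev.and (ball_mem_nhds (0 : ℂ) hr))
  have hg1 : ContMDiffOn 𝓘(ℂ, ℂ) 𝓘(ℂ, E) ω (e ∘ f) (ball 0 r') := by
    refine ContMDiffOn.comp (t := (chartAt E (f 0)).source) contMDiffOn_extChartAt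
      (hf.1.mono fun z hz => (hb z hz).2) ?_
    intro z hz
    have := (hb z hz).1
    rwa [he, extChartAt_source] at this
  have hg : DifferentiableOn ℂ (e ∘ f) (ball 0 r') :=
    (contMDiffOn_iff_contDiffOn.1 hg1).differentiableOn omega_ne_zero
  have hR : ContDiffAt ℝ ∞ (ρ ∘ e.symm) ((e ∘ f) 0) := by
    have h1 := hρ (f 0) (hf.2 h0r)
    rw [contMDiffWithinAt_iff] at h1
    have h2 := h1.2
    have h3 : ContDiffWithinAt ℝ ∞ (ρ ∘ e.symm) (e.symm ⁻¹' V ∩ univ) ((e ∘ f) 0) := by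
      simpa [he, Function.comp_def, chartAt_self_eq] using h2
    refine h3.contDiffAt ?_
    rw [inter_univ]
    have h4 : ContinuousAt e.symm (e (f 0)) := continuousAt_extChartAt_symm (f 0)
    have h5 : e.symm (e (f 0)) = f 0 := extChartAt_to_inv (f 0)
    exact h4.preimage_mem_nhds (by rw [h5]; exact hV.mem_nhds (hf.2 h0r))
  have hd : deriv (e ∘ f) 0 = 0 := by
    have hfm : MDifferentiableAt 𝓘(ℂ, ℂ) 𝓘(ℂ, E) f 0 :=
      ((hf.1 0 h0r).contMDiffAt (ball_mem_nhds 0 hr)).mdifferentiableAt omega_ne_zero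
    have hem : MDifferentiableAt 𝓘(ℂ, E) 𝓘(ℂ, E) e (f 0) :=
      mdifferentiableAt_extChartAt (by rw [← extChartAt_source 𝓘(ℂ, E)]; exact mem_of_mem_nhds hsrc)
    have h1 := mfderiv_comp (0 : ℂ) hem hfm
    rw [h0] at h1
    have h2 : mfderiv 𝓘(ℂ, ℂ) 𝓘(ℂ, E) (e ∘ f) 0 = 0 := by rw [h1]; exact ContinuousLinearMap.comp_zero _
    rw [mfderiv_eq_fderiv] at h2
    rw [← fderiv_apply_one_eq_deriv, h2]
    rfl
  have h1 := laplace_zero_vec hr' hg hR hd
  rw [← h1]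
  apply laplace_congr
  filter_upwards [hev] with z hz
  show ρ (f z) = ρ (e.symm (e (f z)))
  rw [e.left_inv hz]

/-! ### Kähler metrics on products -/

theorem disc_fst {S : Set (X × K)} {T : Set X} {r : ℝ} {f : ℂ → X × K}
    (hf : IsHolDisc (E × F) S r f) (hST : ∀ p ∈ S, p.1 ∈ T) :
    IsHolDisc E T r (fun z => (f z).1) :=
  ⟨contMDiff_fst'.comp_contMDiffOn hf.1, fun _ hz => hST _ (hf.2 hz)⟩

theorem disc_snd {S : Set (X × K)} {T : Set K} {r : ℝ} {f : ℂ → X × K}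
    (hf : IsHolDisc (E × F) S r f) (hST : ∀ p ∈ S, p.2 ∈ T) :
    IsHolDisc F T r (fun z => (f z).2) :=
  ⟨contMDiff_snd'.comp_contMDiffOn hf.1, fun _ hz => hST _ (hf.2 hz)⟩

theorem disc_mono {S T : Set X} {r : ℝ} {f : ℂ → X} (hf : IsHolDisc E S r f) (h : S ⊆ T) :
    IsHolDisc E T r f := ⟨hf.1, fun _ hz => h (hf.2 hz)⟩

theorem disc_mdiff {S : Set X} {r : ℝ} {f : ℂ → X} (hr : 0 < r) (hf : IsHolDisc E S r f) :
    MDifferentiableAt 𝓘(ℂ, ℂ) 𝓘(ℂ, E) f 0 :=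
  ((hf.1 0 (mem_ball_self hr)).contMDiffAt (ball_mem_nhds 0 hr)).mdifferentiableAt omega_ne_zero

theorem kahler_prod [CompleteSpace E] [CompleteSpace F] [IsManifold 𝓘(ℂ, E) ω X]
    [IsManifold 𝓘(ℂ, F) ω K] {S : Set X} (hS : IsKahlerSubmanifold E S)
    (hK : IsKahlerSubmanifold F (univ : Set K)) :
    IsKahlerSubmanifold (E × F) (Prod.fst ⁻¹' S : Set (X × K)) := by
  obtain ⟨J, V, ρ, h1, h2, h3, h4, h5⟩ := hS
  obtain ⟨J', V', ρ', k1, k2, k3, k4, k5⟩ := hK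
  refine ⟨J × J', fun j => V j.1 ×ˢ V' j.2, fun j p => ρ j.1 p.1 + ρ' j.2 p.2,
    fun j => (h1 j.1).prod (k1 j.2), ?_, ?_, ?_, ?_⟩
  · rintro ⟨x, y⟩ hx
    obtain ⟨j, hj⟩ := h2 x hx
    obtain ⟨k, hk⟩ := k2 y trivial
    exact ⟨(j, k), hj, hk⟩
  · rintro ⟨j, k⟩
    have e1 : ContMDiffOn 𝓘(ℝ, E × F) 𝓘(ℝ, ℝ) ∞ (fun p : X × K => ρ j p.1) (V j ×ˢ V' k) :=
      (h3 j).comp contMDiff_fstR.contMDiffOn fun p hp => hp.1
    have e2 : ContMDiffOn 𝓘(ℝ, E × F) 𝓘(ℝ, ℝ) ∞ (fun p : X × K => ρ' k p.2) (V j ×ˢ V' k) :=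
      (k3 k).comp contMDiff_sndR.contMDiffOn fun p hp => hp.2
    exact e1.add e2
  · rintro ⟨j, k⟩ r f hr hf hne
    have f1 : IsHolDisc E (V j ∩ S) r (fun z => (f z).1) :=
      disc_fst hf fun p hp => ⟨hp.1.1, hp.2⟩
    have f2 : IsHolDisc F (V' k ∩ univ) r (fun z => (f z).2) :=
      disc_snd hf fun p hp => ⟨hp.1.2, trivial⟩
    have f1' : IsHolDisc E (V j) r (fun z => (f z).1) := disc_mono f1 inter_subset_left
    have f2' : IsHolDisc F (V' k) r (fun z => (f z).2) := disc_mono f2 inter_subset_left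
    have c1 := fun d => contDiffAt_line (h3 j) hr f1' d
    have c2 := fun d => contDiffAt_line (k3 k) hr f2' d
    have hadd := laplace_add (u := fun z => ρ j (f z).1) (v := fun z => ρ' k (f z).2) c1 c2
    show 0 < laplaceAtZero (fun z => ρ j (f z).1 + ρ' k (f z).2)
    rw [hadd]
    by_cases d1 : mfderiv 𝓘(ℂ, ℂ) 𝓘(ℂ, E) (fun z => (f z).1) 0 = 0
    · by_cases d2 : mfderiv 𝓘(ℂ, ℂ) 𝓘(ℂ, F) (fun z => (f z).2) 0 = 0
      · exact absurd (mfderiv_pair (disc_mdiff hr f1) (disc_mdiff hr f2) d1 d2) hne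
      · rw [laplace_zero (h1 j) (h3 j) hr f1' d1, zero_add]
        exact k4 k r _ hr f2 d2
    · have p1 := h4 j r _ hr f1 d1
      by_cases d2 : mfderiv 𝓘(ℂ, ℂ) 𝓘(ℂ, F) (fun z => (f z).2) 0 = 0
      · rw [laplace_zero (k1 k) (k3 k) hr f2' d2, add_zero]
        exact p1
      · have p2 := k4 k r _ hr f2 d2
        exact add_pos p1 p2
  · rintro ⟨j, k⟩ ⟨j', k'⟩ r f hr hf
    have f1 : IsHolDisc E (V j ∩ V j' ∩ S) r (fun z => (f z).1) :=
      disc_fst hf fun p hp => ⟨⟨hp.1.1.1, hp.1.2.1⟩, hp.2⟩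
    have f2 : IsHolDisc F (V' k ∩ V' k' ∩ univ) r (fun z => (f z).2) :=
      disc_snd hf fun p hp => ⟨⟨hp.1.1.2, hp.1.2.2⟩, trivial⟩
    have c1 : ∀ d : ℂ, ContDiffAt ℝ 2 (fun s : ℝ => ρ j (f ((s : ℂ) * d)).1 -
        ρ j' (f ((s : ℂ) * d)).1) 0 := fun d =>
      (contDiffAt_line (h3 j) hr (disc_mono f1 (inter_subset_left.trans inter_subset_left)) d).sub
        (contDiffAt_line (h3 j') hr (disc_mono f1 (inter_subset_left.trans inter_subset_right)) d)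
    have c2 : ∀ d : ℂ, ContDiffAt ℝ 2 (fun s : ℝ => ρ' k (f ((s : ℂ) * d)).2 -
        ρ' k' (f ((s : ℂ) * d)).2) 0 := fun d =>
      (contDiffAt_line (k3 k) hr (disc_mono f2 (inter_subset_left.trans inter_subset_left)) d).sub
        (contDiffAt_line (k3 k') hr (disc_mono f2 (inter_subset_left.trans inter_subset_right)) d)
    have hadd := laplace_add (u := fun z => ρ j (f z).1 - ρ j' (f z).1)
      (v := fun z => ρ' k (f z).2 - ρ' k' (f z).2) c1 c2
    rw [h5 j j' r _ hr f1, k5 k k' r _ hr f2, add_zero] at hadd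
    rw [← hadd]
    congr 1
    funext z
    ring

/-! ### The family and the line bundle -/

theorem family_prod [CompleteSpace E] [CompleteSpace F] [IsManifold 𝓘(ℂ, E) ω X]
    [IsManifold 𝓘(ℂ, F) ω K] [CompactSpace K] [ConnectedSpace K]
    (hK : IsKahlerSubmanifold F (univ : Set K)) {π : X → ℂ} (hπ : IsKahlerFamily E π) :
    IsKahlerFamily (E × F) (fun p : X × K => π p.1) where
  mem_disc p := hπ.mem_disc p.1
  holomorphic := hπ.holomorphic.comp contMDiff_fst'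
  submersion := by
    rintro ⟨x, y⟩
    have h1 : MDifferentiableAt 𝓘(ℂ, E) 𝓘(ℂ, ℂ) π x := hπ.holomorphic.mdifferentiable omega_ne_zero x
    have h2 : MDifferentiableAt 𝓘(ℂ, E × F) 𝓘(ℂ, E) (Prod.fst : X × K → X) (x, y) :=
      contMDiff_fst'.mdifferentiable omega_ne_zero (x, y)
    have h3 : mfderiv 𝓘(ℂ, E × F) 𝓘(ℂ, ℂ) (fun p : X × K => π p.1) (x, y) =
        (mfderiv 𝓘(ℂ, E) 𝓘(ℂ, ℂ) π x).comp
          (mfderiv 𝓘(ℂ, E × F) 𝓘(ℂ, E) (Prod.fst : X × K → X) (x, y)) :=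
      mfderiv_comp (I' := 𝓘(ℂ, E)) (x, y) h1 h2
    have h4 : mfderiv 𝓘(ℂ, E × F) 𝓘(ℂ, E) (Prod.fst : X × K → X) (x, y) =
        ContinuousLinearMap.fst ℂ E F := by
      rw [modelWithCornersSelf_prod]
      exact mfderiv_fst
    rw [h3, h4]
    intro c
    obtain ⟨v, hv⟩ := hπ.submersion x c
    exact ⟨(v, 0), hv⟩
  proper := by
    intro C hC hCc
    have h := (hπ.proper C hC hCc).prod (isCompact_univ (X := K))
    convert h using 1
    ext p
    simp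
  connected := by
    intro t ht
    have h := (hπ.connected t ht).prod (isConnected_univ (α := K))
    convert h using 1
    ext p
    simp
  kahler := fun t ht => kahler_prod (hπ.kahler t ht) hK

variable (K) in
/-- The pull-back of a holomorphic line bundle on `X` to `X × K`. -/
def pullback (F : Type) [NormedAddCommGroup F] [NormedSpace ℂ F] [ChartedSpace F K]
    (L : HolLineBundle E X) : HolLineBundle (E × F) (X × K) where
  ι := L.ι
  U i := Prod.fst ⁻¹' L.U i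
  g i j p := L.g i j p.1
  isOpen_U i := (L.isOpen_U i).preimage continuous_fst
  cover p := L.cover p.1
  holomorphic i j := (L.holomorphic i j).comp contMDiff_fst'.contMDiffOn fun _ hp => hp
  ne_zero i j p hp := L.ne_zero i j p.1 hp
  cocycle i j k p hp := L.cocycle i j k p.1 hp

theorem psh_pullback [Nonempty K] {S : Set X} {φ : X → EReal} (h : IsPsh E S φ) :
    IsPsh (E × F) (Prod.fst ⁻¹' S : Set (X × K)) (fun p => φ p.1) := by
  refine ⟨fun p hp => h.1 p.1 hp, ?_, ?_, ?_⟩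
  · intro p hp c hc
    have h1 := h.2.1 p.1 hp c hc
    have h2 : Tendsto (Prod.fst : X × K → X) (𝓝[Prod.fst ⁻¹' S] p) (𝓝[S] p.1) :=
      tendsto_nhdsWithin_of_tendsto_nhds_of_eventually_within _
        (continuous_fst.continuousAt.tendsto.mono_left nhdsWithin_le_nhds)
        (eventually_mem_nhdsWithin.mono fun _ h => h)
    exact h2.eventually h1
  · rintro ⟨x, y⟩ hx W hW
    rw [nhds_prod_eq, Filter.mem_prod_iff] at hW
    obtain ⟨W1, hW1, W2, hW2, hsub⟩ := hW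
    obtain ⟨x', hx', hne⟩ := h.2.2.1 x hx W1 hW1
    exact ⟨(x', y), ⟨hsub ⟨hx'.1, mem_of_mem_nhds hW2⟩, hx'.2⟩, hne⟩
  · intro r f hr hf g hg hle
    exact h.2.2.2 r (fun z => (f z).1) hr (disc_fst hf fun p hp => hp) g hg hle

theorem posMetric_pullback [Nonempty K] {L : HolLineBundle E X} {S : Set X}
    {φ : L.ι → X → EReal} (h : L.IsPosMetric S φ) :
    (pullback K F L).IsPosMetric (Prod.fst ⁻¹' S) (fun i p => φ i p.1) where
  psh i := psh_pullback (h.psh i)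
  compat i j p hp := h.compat i j p.1 hp

/-! ### Descent of metrics -/

theorem exists_max [CompactSpace K] [Nonempty K] {S : Set X} {ψ : X × K → EReal}
    (h : UpperSemicontinuousOn ψ (Prod.fst ⁻¹' S)) {x : X} (hx : x ∈ S) :
    ∃ k : K, ∀ k' : K, ψ (x, k') ≤ ψ (x, k) := by
  have hc : IsCompact ({x} ×ˢ (univ : Set K)) := isCompact_singleton.prod isCompact_univ
  have hne : ({x} ×ˢ (univ : Set K)).Nonempty := ⟨(x, Classical.arbitrary K), rfl, trivial⟩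
  have husc : UpperSemicontinuousOn ψ ({x} ×ˢ (univ : Set K)) :=
    h.mono (by rintro ⟨a, b⟩ ⟨ha, -⟩; have ha' : a = x := ha; subst ha'; exact hx)
  obtain ⟨⟨a, k⟩, ⟨ha, -⟩, hmax⟩ := husc.exists_isMaxOn hne hc
  have ha' : a = x := ha
  subst ha'
  exact ⟨k, fun k' => hmax ⟨rfl, trivial⟩⟩

theorem sup_eq [CompactSpace K] [Nonempty K] {S : Set X} {ψ : X × K → EReal}
    (h : UpperSemicontinuousOn ψ (Prod.fst ⁻¹' S)) {x : X} (hx : x ∈ S) :
    ∃ k : K, (⨆ k', ψ (x, k')) = ψ (x, k) := by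
  obtain ⟨k, hk⟩ := exists_max h hx
  exact ⟨k, le_antisymm (iSup_le hk) (le_iSup (fun k' => ψ (x, k')) k)⟩

theorem psh_descent [CompactSpace K] [Nonempty K] {S : Set X} {ψ : X × K → EReal}
    (h : IsPsh (E × F) (Prod.fst ⁻¹' S) ψ) : IsPsh E S (fun x => ⨆ k, ψ (x, k)) := by
  refine ⟨?_, ?_, ?_, ?_⟩
  · intro x hx
    obtain ⟨k, hk⟩ := sup_eq h.2.1 hx
    show (⨆ k', ψ (x, k')) < ⊤
    rw [hk]
    exact h.1 (x, k) hx
  · intro x hx c hc
    have key : ∀ᶠ x' in 𝓝 x, ∀ k ∈ (univ : Set K), x' ∈ S → ψ (x', k) < c := by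
      apply isCompact_univ.eventually_forall_of_forall_eventually
      intro k _
      have h1 : ψ (x, k) < c := lt_of_le_of_lt (le_iSup (fun k' => ψ (x, k')) k) hc
      have h2 := h.2.1 (x, k) hx c h1
      rw [eventually_nhdsWithin_iff] at h2
      exact h2.mono fun p hp hp' => hp hp'
    show ∀ᶠ x' in 𝓝[S] x, (⨆ k, ψ (x', k)) < c
    rw [eventually_nhdsWithin_iff]
    filter_upwards [key] with x' h1 h2
    obtain ⟨k, hk⟩ := sup_eq h.2.1 h2
    rw [hk]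
    exact h1 k trivial h2
  · intro x hx W hW
    obtain ⟨⟨y, k⟩, hy, hne⟩ := h.2.2.1 (x, Classical.arbitrary K) hx (Prod.fst ⁻¹' W)
      (continuous_fst.continuousAt.preimage_mem_nhds hW)
    refine ⟨y, hy, fun h' => hne ?_⟩
    have h'' : (⨆ k, ψ (y, k)) = ⊥ := h'
    rw [iSup_eq_bot] at h''
    exact h'' k
  · intro r f hr hf g hg hle
    refine iSup_le fun k => ?_
    refine h.2.2.2 r (fun z => (f z, k)) hr
      ⟨contMDiffOn_prodMk hf.1 contMDiffOn_const, fun z hz => hf.2 hz⟩ g hg ?_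
    intro ζ hζ
    exact (le_iSup (fun k => ψ (f ζ, k)) k).trans (hle ζ hζ)

theorem posMetric_descent [CompactSpace K] [Nonempty K] {L : HolLineBundle E X} {S : Set X}
    {ψ : L.ι → X × K → EReal} (h : (pullback K F L).IsPosMetric (Prod.fst ⁻¹' S) ψ) :
    L.IsPosMetric S (fun i x => ⨆ k, ψ i (x, k)) where
  psh i := psh_descent (h.psh i)
  compat i j x hx := by
    obtain ⟨k1, hk1⟩ := sup_eq (S := L.U i ∩ S) (ψ := ψ i) (h.psh i).2.1 (x := x) ⟨hx.1.1, hx.2⟩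
    obtain ⟨k2, hk2⟩ := sup_eq (S := L.U j ∩ S) (ψ := ψ j) (h.psh j).2.1 (x := x) ⟨hx.1.2, hx.2⟩
    apply le_antisymm
    · rw [hk1]
      have := h.compat i j (x, k1) hx
      rw [this]
      exact add_le_add_left (le_iSup (fun k => ψ j (x, k)) k1) _
    · rw [hk2]
      have := h.compat i j (x, k2) hx
      have h3 : ψ j (x, k2) + ((Real.log (‖L.g i j x‖ ^ 2) : ℝ) : EReal) = ψ i (x, k2) := this.symm
      rw [h3]
      exact le_iSup (fun k => ψ i (x, k)) k2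

end Pool.Agent.KS6_82.Kah
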