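import Pool.Graph.R_seed8.Results.MP_752b71_an.NoExtension

/-!
# No metric near the central fibre is bounded below by `φ₀ - C` on the central fibre

The proof follows `no_extension` of the earlier run.
-/

set_option autoImplicit false

open Filter Metric Set Topology
open scoped ComplexConjugate Manifold ContDiff

namespace Pool.Agent.KS6_82.Kah

open Pool.Agent.Results.MP_752b71_an.NoExtension

theorem no_extension' (r : ℝ) (hr : 0 < r) (C₀ : ℝ) :
    ¬ ∃ φ : LL.ι → Tot → EReal, LL.IsPosMetric (tt ⁻¹' ball 0 r) φ ∧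
      ∀ i, ∀ x ∈ LL.U i, tt x = 0 → phi0 i x ≤ φ i x + (C₀ : EReal) := by
  rintro ⟨φ, hφ, hext⟩
  set δ : ℝ := min r 1 / 4 with hδ
  have hδ0 : 0 < δ := by have := lt_min hr one_pos; linarith
  have hδ1 : δ < 1 := by have := min_le_right r 1; linarith
  have hδr : δ < r := by have := min_le_left r 1; linarith
  -- upper bound on a compact set in the chart B
  set A : Bool × Bool := (false, false) with hA
  set B : Bool × Bool := (true, false) with hB
  obtain ⟨M, hM0, hM⟩ : ∃ M : ℝ, Real.log δ ≤ M ∧ ∀ x t : ℂ, ‖x‖ ≤ 1 → ‖t‖ ≤ δ →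
      φ B (bwd B (x, 0, t)) ≤ (M : EReal) := by
    set C : Set Tot := bwd B '' (closedBall 0 1 ×ˢ {0} ×ˢ closedBall 0 δ) with hC
    have hCc : IsCompact C := by
      refine ((isCompact_closedBall _ _).prod (isCompact_singleton.prod
        (isCompact_closedBall _ _))).image_of_continuousOn ((continuousOn_bwd B).mono ?_)
      rintro p ⟨_, _, hp⟩
      have : ‖p.2.2‖ ≤ δ := by simpa using hp
      show ‖p.2.2‖ < 1
      linarith
    have hCsub : C ⊆ src B ∩ tt ⁻¹' (ball 0 r) := by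
      rintro _ ⟨⟨x, y, t⟩, ⟨_, hy, ht⟩, rfl⟩
      have hy' : y = 0 := hy
      have ht' : ‖t‖ ≤ δ := by simpa using ht
      subst hy'
      exact cc_mem (by linarith) (by linarith)
    have hpsh := hφ.psh B
    have husc : UpperSemicontinuousOn (φ B) C := hpsh.2.1.mono hCsub
    have hCne : C.Nonempty := ⟨_, (0, 0, 0), ⟨by simp, by simp, by simp [hδ0.le]⟩, rfl⟩
    obtain ⟨a, ha, hmax⟩ := husc.exists_isMaxOn hCne hCc
    have hatop : φ B a < ⊤ := hpsh.1 a (hCsub ha)
    refine ⟨max (Real.log δ) (φ B a).toReal, le_max_left _ _, ?_⟩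
    intro x t hx ht
    have hmem : bwd B (x, 0, t) ∈ C :=
      ⟨(x, 0, t), ⟨by simpa using hx, rfl, by simpa using ht⟩, rfl⟩
    refine (hmax hmem).trans ?_
    refine (EReal.le_coe_toReal hatop.ne).trans ?_
    exact EReal.coe_le_coe_iff.2 (le_max_right _ _)
  -- the disc
  set ε : ℝ := Real.exp (Real.log δ - M - 1 - |C₀|) with hε
  have hε0 : 0 < ε := Real.exp_pos _
  have hε1 : ε < 1 := by
    rw [hε, Real.exp_lt_one_iff]
    have := abs_nonneg C₀
    linarith
  have hlogε : Real.log ε = Real.log δ - M - 1 - |C₀| := Real.log_exp _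
  set q : ℂ → E3 := fun ζ => (ζ / ε, ((ε * δ : ℝ) : ℂ), -(δ * ζ)) with hq
  have hεc : (ε : ℂ) ≠ 0 := Complex.ofReal_ne_zero.2 hε0.ne'
  have hqt : ∀ ζ : ℂ, ‖ζ‖ < 2 → ‖(q ζ).2.2‖ < 2 * δ := by
    intro ζ hζ
    simp only [hq, norm_neg, norm_mul, Complex.norm_real, Real.norm_of_nonneg hδ0.le]
    nlinarith
  have h2δ1 : 2 * δ < 1 := by have := min_le_right r 1; linarith
  have h2δr : 2 * δ < r := by have := min_le_left r 1; linarith
  have hqtgt : ∀ ζ : ℂ, ‖ζ‖ < 2 → q ζ ∈ tgt := fun ζ hζ => (hqt ζ hζ).trans h2δ1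
  have hdisc : IsHolDisc E3 (LL.U A ∩ tt ⁻¹' ball 0 r) 2 (fun ζ => bwd A (q ζ)) := by
    refine ⟨?_, ?_⟩
    · refine (contMDiffOn_bwd A).comp (contMDiffOn_iff_contDiffOn.2 ?_) ?_
      · refine ContDiff.contDiffOn ?_
        simp only [hq]
        fun_prop
      · intro ζ hζ
        exact hqtgt ζ (by simpa using hζ)
    · intro ζ hζ
      have hζ' : ‖ζ‖ < 2 := by simpa using hζ
      refine ⟨bwd_mem _ _, ?_⟩
      show tt (bwd A (q ζ)) ∈ ball (0 : ℂ) r
      rw [tt_bwd A (hqtgt ζ hζ')]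
      simpa using (hqt ζ hζ').trans h2δr
  have hcircle : ∀ ζ : ℂ, ‖ζ‖ = 1 →
      φ A (bwd A (q ζ)) ≤ ((M + Real.log (ε ^ 2) : ℝ) : EReal) := by
    intro ζ hζ
    have hζ0 : ζ ≠ 0 := by
      intro h; rw [h, norm_zero] at hζ; exact zero_ne_one hζ
    have hqm : q ζ ∈ tgt := hqtgt ζ (by rw [hζ]; norm_num)
    have hmB : bwd A (q ζ) ∈ src B := by
      rw [bwd_mem_src_iff A B hqm]
      simp [hA, hB, hq, Xf, Yf, ii, jj, hζ0, hεc]
    obtain ⟨_, _, hfB⟩ := fwd_bwd_eq A B hqm hmB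
    have hfB' : fwd B (bwd A (q ζ)) = (ε / ζ, 0, -(δ * ζ)) := by
      rw [hfB]
      simp only [hA, hB, hq, Xf, Yf, ii, jj, ii', jj', Bool.false_eq_true, if_false, if_true]
      simp only [Matrix.cons_val_zero, Matrix.cons_val_one, Matrix.cons_val]
      refine Prod.ext ?_ (Prod.ext ?_ rfl)
      · simp
      · simp only
        push_cast
        field_simp
        ring
    have hb : bwd A (q ζ) = bwd B (ε / ζ, 0, -(δ * ζ)) := by
      rw [← hfB', bwd_fwd B hmB]
    have hbound : φ B (bwd A (q ζ)) ≤ (M : EReal) := by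
      rw [hb]
      refine hM _ _ ?_ ?_
      · rw [norm_div, hζ, div_one, Complex.norm_real, Real.norm_of_nonneg hε0.le]
        exact hε1.le
      · rw [norm_neg, norm_mul, hζ, mul_one, Complex.norm_real, Real.norm_of_nonneg hδ0.le]
    have hmemS : bwd A (q ζ) ∈ LL.U A ∩ LL.U B ∩ tt ⁻¹' ball 0 r := by
      refine ⟨⟨bwd_mem _ _, hmB⟩, ?_⟩
      show tt (bwd A (q ζ)) ∈ ball (0 : ℂ) r
      rw [tt_bwd A hqm]
      simpa using (hqt ζ (by rw [hζ]; norm_num)).trans h2δr
    have hc := hφ.compat A B (bwd A (q ζ)) hmemS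
    have hgnorm : ‖LL.g A B (bwd A (q ζ))‖ = ε := by
      show ‖ggE A B (fwd A (bwd A (q ζ)))‖ = ε
      rw [fwd_bwd A hqm]
      simp [ggE, hA, hB, hq, Xf, Yf, ii, jj, hζ, abs_of_pos hε0]
    rw [hc, hgnorm, EReal.coe_add]
    exact add_le_add hbound le_rfl
  have hpsh := (hφ.psh A).2.2.2 2 _ one_lt_two hdisc (fun _ => M + Real.log (ε ^ 2))
    continuous_const hcircle
  rw [Real.circleAverage_const] at hpsh
  have hq0 : q 0 ∈ tgt := hqtgt 0 (by simp)
  have hzero : tt (bwd A (q 0)) = 0 := by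
    rw [tt_bwd A hq0]; simp [hq]
  have hval := hext A (bwd A (q 0)) (bwd_mem _ _) hzero
  replace hpsh := hval.trans (add_le_add_left hpsh (C₀ : EReal))
  have hphi : phi0 A (bwd A (q 0)) = ((Real.log (ε * δ) : ℝ) : EReal) := by
    unfold phi0
    rw [fwd_bwd A hq0]
    simp only [hq]
    rw [EL_of_ne (Complex.ofReal_ne_zero.2 (by positivity)), Complex.norm_real,
      Real.norm_of_nonneg (by positivity)]
  rw [hphi, ← EReal.coe_add] at hpsh
  have hfin := EReal.coe_le_coe_iff.1 hpsh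
  rw [Real.log_mul hε0.ne' hδ0.ne', Real.log_pow] at hfin
  push_cast at hfin
  have hC := le_abs_self C₀
  linarith

end Pool.Agent.KS6_82.Kah
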